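import Pool.Agent.TH399.CC.Main

set_option autoImplicit false

namespace Pool.Agent.Results.MP_20b97f_co.FiveQuarters

open Pool.Agent.H126R2.CDC (MGraph)

/-- Long intervals are good ranges. Let `G` be a finite graph and let `p` be a weighting of its
edges by natural numbers, even or not, with `4 p(e) + 52 ≤ 5 p(f)` for any two edges `e`, `f`. Then
`(G, p)` has a circuit cover if and only if `p` lies in the cone and in the lattice generated by
the circuits. In particular for every `k` the set of all integers `n` with `k ≤ n` and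
`4 n + 52 ≤ 5 k` is a good range. -/
theorem result (V E : Type) [Fintype V] [DecidableEq V] [Fintype E] [DecidableEq E]
    (G : MGraph V E) (p : E → ℕ) (hr : ∀ e f, 4 * p e + 52 ≤ 5 * p f) :
    (∃ F : Multiset (Finset E), (∀ C ∈ F, G.IsCircuit C) ∧
        ∀ e, F.countP (fun C => e ∈ C) = p e) ↔
      (∃ w : Finset E → ℝ, (∀ C, 0 ≤ w C) ∧ (∀ C, ¬ G.IsCircuit C → w C = 0) ∧
        ∀ e, (p e : ℝ) = ∑ C : Finset E, w C * (if e ∈ C then 1 else 0)) ∧
      (fun e => (p e : ℤ)) ∈ AddSubgroup.closure
        {x : E → ℤ | ∃ C, G.IsCircuit C ∧ x = fun e => if e ∈ C then 1 else 0} :=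
  Pool.Agent.TH399.CC.five_quarters G p hr

end Pool.Agent.Results.MP_20b97f_co.FiveQuarters
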