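import Pool.Agent.TH399.CC.Final

set_option autoImplicit false

namespace Pool.Agent.Results.MP_20b97f_co.LargeCuts

open Pool.Agent.H126R2.CDC (MGraph)

/-- Let `K ≥ 4` and let `G` be a finite graph all of whose nonempty cuts have at least `K` edges.
Let `p` be a weighting of its edges by natural numbers, even or not, with
`(K + 2) p(e) + 12 K² ≤ (3 K - 2) p(f)` for any two edges `e`, `f`. Then `(G, p)` has a circuit
cover if and only if `p` lies in the lattice generated by the circuits. -/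
theorem result (V E : Type) [Fintype V] [DecidableEq V] [Fintype E] [DecidableEq E]
    (G : MGraph V E) (K : ℕ) (hK : 4 ≤ K)
    (hcut : ∀ B : Finset V,
      (Finset.univ.filter (fun e => (∃ x ∈ G.ends e, x ∈ B) ∧ ∃ x ∈ G.ends e, x ∉ B)).card = 0 ∨
      K ≤ (Finset.univ.filter (fun e => (∃ x ∈ G.ends e, x ∈ B) ∧ ∃ x ∈ G.ends e, x ∉ B)).card)
    (p : E → ℕ) (hr : ∀ e f, (K + 2) * p e + 12 * K ^ 2 ≤ (3 * K - 2) * p f) :
    (∃ F : Multiset (Finset E), (∀ C ∈ F, G.IsCircuit C) ∧
        ∀ e, F.countP (fun C => e ∈ C) = p e) ↔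
      (fun e => (p e : ℤ)) ∈ AddSubgroup.closure
        {x : E → ℤ | ∃ C, G.IsCircuit C ∧ x = fun e => if e ∈ C then 1 else 0} :=
  Pool.Agent.TH399.CC.large_cuts K hK G hcut p hr

end Pool.Agent.Results.MP_20b97f_co.LargeCuts
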