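import Pool.Agent.TH386.PS.Cor

set_option autoImplicit false

/-!
Circuit covers of weighted graphs with a family of spanning two-edge-connected subgraphs.
-/

namespace Pool.Agent.Results.MP_20b97f_co.PackedSubgraphs

open Finset
open Pool.Agent.H126R2.CDC (MGraph)

variable {V E : Type} [Fintype V] [DecidableEq V] [Fintype E] [DecidableEq E]

/-- The edges of `D` that leave the vertex set `B`: those with an end-vertex in `B` and an
end-vertex outside `B`. -/
def cut (G : MGraph V E) (D : Finset E) (B : Finset V) : Finset E :=
  D.filter (fun e => (∃ x ∈ G.ends e, x ∈ B) ∧ ∃ x ∈ G.ends e, x ∉ B)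

/-- Every nonempty cut of `G` contains at least two edges of `H`. In a connected graph this says
that the edges of `H` form a spanning two-edge-connected subgraph. -/
def Spans2 (G : MGraph V E) (H : Finset E) : Prop :=
  ∀ B : Finset V, (cut G univ B).Nonempty → 2 ≤ (cut G H B).card

/-- `(G, p)` has a circuit cover: some multiset of circuits contains every edge `e` in exactly `p e`
of its members. -/
def HasCover (G : MGraph V E) (p : E → ℕ) : Prop :=
  ∃ F : Multiset (Finset E), (∀ C ∈ F, G.IsCircuit C) ∧ ∀ e, F.countP (fun C => e ∈ C) = p e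

/-- `p` is an integer combination of the incidence vectors of the circuits of `G`. -/
def InLattice (G : MGraph V E) (p : E → ℕ) : Prop :=
  (fun e => (p e : ℤ)) ∈ AddSubgroup.closure
    {x : E → ℤ | ∃ C, G.IsCircuit C ∧ x = fun e => if e ∈ C then 1 else 0}

/-- Let `p` be a weighting of the edges of a finite graph `G` by natural numbers, even or not, and
let `H 0, …, H (k-1)` be sets of edges, each with at least two edges in every nonempty cut of `G`
(for connected `G`: spanning two-edge-connected subgraphs). In each of the following two cases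
`(G, p)` has a circuit cover if and only if `p` is in the lattice of the circuits.

* There are natural numbers `ν 0, …, ν (k-1)` such that for every edge `e`, with `x` the sum of the
  `2 ν i` over the `H i` containing `e`, `y` the sum of the `2 ν i` over the others and `j` the
  number of these others, `x ≤ p e ≤ x + 2 y + 1 - 8 j`.
* Every edge lies in at most `l` of the `k` sets, and `l p(e) + 12 k l ≤ (2 k - l) p(f)` for all
  edges `e`, `f`: ratio up to `(2 k - l) / l`, so `2 k - 1` for pairwise disjoint sets. -/
theorem result (V E : Type) [Fintype V] [DecidableEq V] [Fintype E] [DecidableEq E]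
    (G : MGraph V E) (p : E → ℕ) (k : ℕ) (H : Fin k → Finset E) (hH : ∀ i, Spans2 G (H i)) :
    (∀ ν : Fin k → ℕ,
      (∀ e, 2 * ∑ i ∈ univ.filter (fun i => e ∈ H i), ν i ≤ p e) →
      (∀ e, p e + 8 * (univ.filter (fun i => e ∉ H i)).card ≤
        2 * ∑ i ∈ univ.filter (fun i => e ∈ H i), ν i +
          4 * ∑ i ∈ univ.filter (fun i => e ∉ H i), ν i + 1) →
      (HasCover G p ↔ InLattice G p)) ∧
    (∀ l : ℕ, 1 ≤ l → (∀ e, (univ.filter (fun i => e ∈ H i)).card ≤ l) →
      (∀ e f, l * p e + 12 * k * l ≤ (2 * k - l) * p f) →
      (HasCover G p ↔ InLattice G p)) := by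
  refine ⟨?_, ?_⟩
  · intro ν h1 h2
    exact ⟨fun h => (Pool.Agent.H126R2.NC.cone_lat_of_intCone G p h).2, fun h =>
      Pool.Agent.TH386.PS.cover_family G H ν p hH h1 h2 h⟩
  · intro l hl hmul hr
    exact Pool.Agent.TH386.PS.cover_ratio G H l hl hH hmul p (by
      intro e f
      rw [Fintype.card_fin]
      exact hr e f)

end Pool.Agent.Results.MP_20b97f_co.PackedSubgraphs
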