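import Pool.Agent.TH399.CC.Span

set_option autoImplicit false

namespace Pool.Agent.Results.MP_20b97f_co.SpanningConstant

open Pool.Agent.H126R2.CDC (MGraph)

/-- Let `G` be a finite graph and let `p` be a weighting of its edges by natural numbers, even or
not, in the lattice of the circuits. Suppose that `p` has a constant value `c` on the edges of a
spanning two-edge-connected subgraph `H` (every nonempty proper vertex set is left by at least two
edges of `H`) and that `p(e) ≤ 2 c - 10` for all other edges `e`. Then `(G, p)` has a circuit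
cover. -/
theorem result (V E : Type) [Fintype V] [DecidableEq V] [Fintype E] [DecidableEq E]
    (G : MGraph V E) (H : Finset E) (c : ℕ) (p : E → ℕ)
    (hH : ∀ B : Finset V, B.Nonempty → B ≠ Finset.univ →
      2 ≤ (H.filter (fun e => (∃ x ∈ G.ends e, x ∈ B) ∧ ∃ x ∈ G.ends e, x ∉ B)).card)
    (hc : ∀ e ∈ H, p e = c) (hp : ∀ e, e ∉ H → p e + 10 ≤ 2 * c)
    (hlat : (fun e => (p e : ℤ)) ∈ AddSubgroup.closure
      {x : E → ℤ | ∃ C, G.IsCircuit C ∧ x = fun e => if e ∈ C then 1 else 0}) :
    ∃ F : Multiset (Finset E), (∀ C ∈ F, G.IsCircuit C) ∧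
      ∀ e, F.countP (fun C => e ∈ C) = p e :=
  Pool.Agent.TH399.CC.cover_span G H c p hH hc hp hlat

end Pool.Agent.Results.MP_20b97f_co.SpanningConstant
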